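import Pool.Agent.H29.NF.A

/-!
# NF, row ZERN: the equations with `a_1 = 0`
-/

set_option autoImplicit false

namespace Pool.NF

open Polynomial NumberField IsDedekindDomain Pool.HYP Pool.TOW Pool.AVS Pool.T1

namespace ZERN76

section Gen

variable {A : Type} [CommRing A]

/-- The cubic polynomial with given coefficients. -/
noncomputable def cub (a b c : A) : A[X] := X ^ 3 + C a * X ^ 2 + C b * X + C c

theorem cub_coeff0 (a b c : A) : (cub a b c).coeff 0 = c := by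
  simp [cub, coeff_X_zero]

theorem cub_coeff1 (a b c : A) : (cub a b c).coeff 1 = b := by
  simp [cub, coeff_X, coeff_C, coeff_X_pow]

theorem cub_coeff2 (a b c : A) : (cub a b c).coeff 2 = a := by
  simp [cub, coeff_X, coeff_C, coeff_X_pow]

theorem cub_coeff3 (a b c : A) : (cub a b c).coeff 3 = 1 := by
  simp [cub, coeff_X, coeff_C, coeff_X_pow]

theorem cub_coeff_big (a b c : A) (i : ℕ) (hi : 4 ≤ i) : (cub a b c).coeff i = 0 := by
  have h1 : i ≠ 3 := by omega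
  have h2 : i ≠ 2 := by omega
  have h3 : (1 : ℕ) ≠ i := by omega
  have h4 : i ≠ 0 := by omega
  simp [cub, coeff_X, coeff_C, coeff_X_pow, h1, h2, h3, h4]

theorem cub_natDegree [Nontrivial A] (a b c : A) : (cub a b c).natDegree = 3 := by
  refine le_antisymm ?_ ?_
  · exact natDegree_le_iff_coeff_eq_zero.2 fun i hi => cub_coeff_big a b c i hi
  · refine le_natDegree_of_ne_zero ?_
    rw [cub_coeff3]
    exact one_ne_zero

theorem cub_monic [Nontrivial A] (a b c : A) : (cub a b c).Monic := by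
  rw [Monic, leadingCoeff, cub_natDegree, cub_coeff3]

theorem eq_cub {f : A[X]} (hm : f.Monic) (hn : f.natDegree = 3) :
    f = cub (f.coeff 2) (f.coeff 1) (f.coeff 0) := by
  ext i
  rcases Nat.lt_or_ge i 4 with hi | hi
  · have h0 : i = 0 ∨ i = 1 ∨ i = 2 ∨ i = 3 := by omega
    rcases h0 with rfl | rfl | rfl | rfl
    · rw [cub_coeff0]
    · rw [cub_coeff1]
    · rw [cub_coeff2]
    · rw [cub_coeff3, ← hn, hm.coeff_natDegree]
  · rw [cub_coeff_big _ _ _ i hi, coeff_eq_zero_of_natDegree_lt (by omega)]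

theorem cub_scale [Nontrivial A] (a b c d : A) :
    (cub a b c).scaleRoots d = cub (a * d) (b * d ^ 2) (c * d ^ 3) := by
  ext i
  rw [coeff_scaleRoots, cub_natDegree]
  rcases Nat.lt_or_ge i 4 with hi | hi
  · have h0 : i = 0 ∨ i = 1 ∨ i = 2 ∨ i = 3 := by omega
    rcases h0 with rfl | rfl | rfl | rfl
    · rw [cub_coeff0, cub_coeff0]
    · rw [cub_coeff1, cub_coeff1]
    · rw [cub_coeff2, cub_coeff2, pow_one]
    · rw [cub_coeff3, cub_coeff3]; simp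
  · rw [cub_coeff_big _ _ _ i hi, cub_coeff_big _ _ _ i hi, zero_mul]

theorem cub_map {B : Type} [CommRing B] (φ : A →+* B) (a b c : A) :
    (cub a b c).map φ = cub (φ a) (φ b) (φ c) := by
  simp [cub]

theorem cub_comp (a b c r : A) :
    (cub a b c).comp (X - C r) = cub (a - 3 * r) (b - 2 * a * r + 3 * r ^ 2)
      (c - b * r + a * r ^ 2 - r ^ 3) := by
  simp only [cub, add_comp, mul_comp, pow_comp, X_comp, C_comp, C_sub, C_add, C_mul, C_pow]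
  have h2 : (C (2 : A) : A[X]) = 2 := rfl
  have h3 : (C (3 : A) : A[X]) = 3 := rfl
  rw [h2, h3]
  ring

end Gen

section Main

variable {K : Type} [Field K] [NumberField K]

/-- The polynomial with `a_1 = 0`. -/
noncomputable def tau (f : (𝓞 K)[X]) : (𝓞 K)[X] :=
  cub 0 (81 * f.coeff 1 - 27 * f.coeff 2 ^ 2)
    (729 * f.coeff 0 - 243 * f.coeff 2 * f.coeff 1 + 54 * f.coeff 2 ^ 3)

theorem tau_eq {f : (𝓞 K)[X]} (hm : f.Monic) (hn : f.natDegree = 3) :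
    tau f = (f.scaleRoots 9).comp (X - C (3 * f.coeff 2)) := by
  conv_rhs => rw [eq_cub hm hn]
  rw [cub_scale, cub_comp, tau, cub_coeff2]
  congr 1 <;> ring

theorem fk_tau {f : (𝓞 K)[X]} (hm : f.Monic) (hn : f.natDegree = 3) :
    fk K (tau f) =
      ((fk K f).scaleRoots ((3 : K) ^ 2)).comp (X - C (algebraMap (𝓞 K) K (3 * f.coeff 2))) := by
  have h1 : fk K (f.scaleRoots 9) = (fk K f).scaleRoots ((3 : K) ^ 2) := by
    have h2 : fk K (f.scaleRoots 9) = (fk K f).scaleRoots (algebraMap (𝓞 K) K 9) := by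
      refine (map_scaleRoots f 9 (algebraMap (𝓞 K) K) ?_)
      rw [hm.leadingCoeff]
      simp
    rw [h2]
    congr 1
    rw [map_ofNat]
    norm_num
  rw [tau_eq hm hn, ← h1]
  simp only [fk]
  rw [Polynomial.map_comp]
  simp

theorem sel_tau (hS : SQSNStmt) (hT : TRAKStmt) {f : (𝓞 K)[X]} (hm : f.Monic)
    (hn : f.natDegree = 3) : SelK (fk K (tau f)) ↔ SelK (fk K f) := by
  rw [fk_tau hm hn, hT K _ _ ((monic_scaleRoots_iff _).2 (hm.map _))]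
  exact hS K (fk K f) 3 (hm.map _) (by norm_num)

theorem irr_tau {f : (𝓞 K)[X]} (hm : f.Monic) (hn : f.natDegree = 3)
    (hi : Irreducible (fk K f)) : Irreducible (fk K (tau f)) := by
  have h9 : (9 : 𝓞 K) ≠ 0 := by norm_num
  have h1 := irr_scale (R := 𝓞 K) (K := K) h9 hm hi
  have h2 : fk K (tau f) =
      taylorEquiv (-(algebraMap (𝓞 K) K (3 * f.coeff 2))) (fk K (f.scaleRoots 9)) := by
    rw [tau_eq hm hn]
    simp only [fk]
    rw [Polynomial.map_comp]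
    show _ = taylor (-(algebraMap (𝓞 K) K (3 * f.coeff 2))) _
    rw [taylor_apply]
    simp [sub_eq_add_neg]
  rw [h2]
  exact (MulEquiv.irreducible_iff (taylorEquiv _)).2 h1

theorem tau_inj {f f' : (𝓞 K)[X]} (hm : f.Monic) (hn : f.natDegree = 3) (hm' : f'.Monic)
    (hn' : f'.natDegree = 3) (h1 : tau f = tau f') (h2 : f.coeff 2 = f'.coeff 2) : f = f' := by
  have h3 := congrArg (fun p => coeff p 1) h1
  have h4 := congrArg (fun p => coeff p 0) h1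
  simp only [tau, cub_coeff1, cub_coeff0] at h3 h4
  have h81 : (81 : 𝓞 K) ≠ 0 := by norm_num
  have h729 : (729 : 𝓞 K) ≠ 0 := by norm_num
  have h5 : f.coeff 1 = f'.coeff 1 := by
    rw [h2] at h3
    exact mul_left_cancel₀ h81 (by linear_combination h3)
  have h6 : f.coeff 0 = f'.coeff 0 := by
    rw [h2, h5] at h4
    exact mul_left_cancel₀ h729 (by linear_combination h4)
  rw [eq_cub hm hn, eq_cub hm' hn', h2, h5, h6]

theorem tau_mem {Y : ℝ} (hY : 0 ≤ Y) {f : (𝓞 K)[X]} (hf : f ∈ AllN K Y) :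
    tau f ∈ AllN K (11 * Y) := by
  obtain ⟨hm, hn, hc⟩ := hf
  have c1 : ∀ σ : K →+* ℂ, ‖σ ((f.coeff 2 : 𝓞 K) : K)‖ ≤ Y := by
    intro σ
    have h1 := hc 1 (by norm_num) σ
    rw [pow_one] at h1
    exact h1
  have c2 : ∀ σ : K →+* ℂ, ‖σ ((f.coeff 1 : 𝓞 K) : K)‖ ≤ Y ^ 2 := fun σ =>
    hc 2 (by norm_num) σ
  have c3 : ∀ σ : K →+* ℂ, ‖σ ((f.coeff 0 : 𝓞 K) : K)‖ ≤ Y ^ 3 := fun σ =>
    hc 3 (by norm_num) σ
  refine ⟨cub_monic _ _ _, cub_natDegree _ _ _, ?_⟩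
  intro i hi σ
  have h0 : i = 0 ∨ i = 1 ∨ i = 2 ∨ i = 3 := by omega
  set x := σ ((f.coeff 2 : 𝓞 K) : K) with hx
  set y := σ ((f.coeff 1 : 𝓞 K) : K) with hy
  set z := σ ((f.coeff 0 : 𝓞 K) : K) with hz
  have e1 : ‖x‖ ≤ Y := c1 σ
  have e2 : ‖y‖ ≤ Y ^ 2 := c2 σ
  have e3 : ‖z‖ ≤ Y ^ 3 := c3 σ
  have e4 : ‖x‖ ^ 2 ≤ Y ^ 2 := pow_le_pow_left₀ (norm_nonneg _) e1 2
  have e5 : ‖x‖ ^ 3 ≤ Y ^ 3 := pow_le_pow_left₀ (norm_nonneg _) e1 3
  have e6 : ‖x‖ * ‖y‖ ≤ Y ^ 3 := by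
    calc ‖x‖ * ‖y‖ ≤ Y * Y ^ 2 := mul_le_mul e1 e2 (norm_nonneg _) hY
      _ = Y ^ 3 := by ring
  rcases h0 with rfl | rfl | rfl | rfl
  · show ‖σ (((tau f).coeff 3 : 𝓞 K) : K)‖ ≤ _
    rw [tau, cub_coeff3]
    simp
  · show ‖σ (((tau f).coeff 2 : 𝓞 K) : K)‖ ≤ _
    rw [tau, cub_coeff2]
    simp only [map_zero, norm_zero, pow_one]
    positivity
  · show ‖σ (((tau f).coeff 1 : 𝓞 K) : K)‖ ≤ _
    rw [tau, cub_coeff1]
    have h1 : σ ((81 * f.coeff 1 - 27 * f.coeff 2 ^ 2 : 𝓞 K) : K) = 81 * y - 27 * x ^ 2 := by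
      simp only [map_sub, map_mul, map_pow, map_ofNat, hx, hy]
    rw [h1]
    calc ‖81 * y - 27 * x ^ 2‖ ≤ ‖81 * y‖ + ‖27 * x ^ 2‖ := norm_sub_le _ _
      _ = 81 * ‖y‖ + 27 * ‖x‖ ^ 2 := by simp
      _ ≤ 81 * Y ^ 2 + 27 * Y ^ 2 := by linarith
      _ ≤ (11 * Y) ^ 2 := by nlinarith [sq_nonneg Y]
  · show ‖σ (((tau f).coeff 0 : 𝓞 K) : K)‖ ≤ _
    rw [tau, cub_coeff0]
    have h1 : σ ((729 * f.coeff 0 - 243 * f.coeff 2 * f.coeff 1 + 54 * f.coeff 2 ^ 3 : 𝓞 K) : K) =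
        729 * z - 243 * x * y + 54 * x ^ 3 := by
      simp only [map_add, map_sub, map_mul, map_pow, map_ofNat, hx, hy, hz]
    rw [h1]
    have hY3 : 0 ≤ Y ^ 3 := pow_nonneg hY 3
    calc ‖729 * z - 243 * x * y + 54 * x ^ 3‖
        ≤ ‖729 * z - 243 * x * y‖ + ‖54 * x ^ 3‖ := norm_add_le _ _
      _ ≤ ‖729 * z‖ + ‖243 * x * y‖ + ‖54 * x ^ 3‖ :=
          add_le_add (norm_sub_le _ _) le_rfl
      _ = 729 * ‖z‖ + 243 * (‖x‖ * ‖y‖) + 54 * ‖x‖ ^ 3 := by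
          simp [mul_assoc]
      _ ≤ 729 * Y ^ 3 + 243 * Y ^ 3 + 54 * Y ^ 3 := by linarith
      _ ≤ (11 * Y) ^ 3 := by nlinarith

end Main

end ZERN76

open ZERN76 in
theorem zern (hA : ALLNStmt) (hS : SQSNStmt) (hT : TRAKStmt) : ZERNStmt := by
  intro K _ _ hpos
  obtain ⟨δ, hδ, Y₀, H⟩ := hpos
  obtain ⟨c, C', hc, hC, hA'⟩ := hA K
  set n := dg K with hn
  refine ⟨δ * c / (C' ^ 2 * 11 ^ (5 * n)), by positivity, 11 * max Y₀ 1, fun Y hY => ?_⟩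
  obtain ⟨Y', rfl⟩ : ∃ Y', Y = 11 * Y' := ⟨Y / 11, by ring⟩
  have hY1 : max Y₀ 1 ≤ Y' := by linarith
  have hY0 : Y₀ ≤ Y' := (le_max_left _ _).trans hY1
  have hY2 : 1 ≤ Y' := (le_max_right _ _).trans hY1
  have hY3 : (1 : ℝ) ≤ 11 * Y' := by linarith
  obtain ⟨h1, h2, h3⟩ := H Y' hY0
  obtain ⟨-, a2, -, -, -, a6, a7⟩ := hA' Y' hY2
  obtain ⟨b1, -, -, b4, b5, -, -⟩ := hA' (11 * Y') hY3
  refine ⟨b4, ?_⟩
  set Z : Set (𝓞 K)[X] :=
    {f ∈ AllN K (11 * Y') | f.coeff 2 = 0 ∧ SelK (fk K f) ∧ Irreducible (fk K f)} with hZ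
  set G : Set (𝓞 K)[X] := {f ∈ AllN K Y' | SelK (fk K f) ∧ Irreducible (fk K f)} with hG
  have hZfin : Z.Finite := b1.subset fun f hf => hf.1
  have h4 : G.ncard ≤ Z.ncard * (Bx K Y').ncard := by
    rw [← Set.ncard_prod]
    refine Set.ncard_le_ncard_of_injOn (fun f : (𝓞 K)[X] => (tau f, f.coeff 2)) ?_ ?_
      (hZfin.prod a6)
    · rintro f ⟨hf, hf1, hf2⟩
      refine ⟨⟨tau_mem (by linarith) hf, cub_coeff2 _ _ _, (sel_tau hS hT hf.1 hf.2.1).2 hf1,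
        irr_tau hf.1 hf.2.1 hf2⟩, ?_⟩
      have h5 := hf.2.2 1 (by norm_num)
      rw [pow_one] at h5
      exact h5
    · rintro f ⟨hf, -⟩ f' ⟨hf', -⟩ he
      obtain ⟨he1, he2⟩ := Prod.mk.injEq _ _ _ _ ▸ he
      exact tau_inj hf.1 hf.2.1 hf'.1 hf'.2.1 he1 he2
  have h5 : (G.ncard : ℝ) ≤ Z.ncard * (Bx K Y').ncard := by exact_mod_cast h4
  have hYn : (0 : ℝ) < Y' ^ n := by positivity
  have h6 : δ * (c * Y' ^ (6 * n)) ≤ Z.ncard * (C' * Y' ^ n) := by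
    calc δ * (c * Y' ^ (6 * n)) ≤ δ * (AllN K Y').ncard := by
          exact mul_le_mul_of_nonneg_left a2 hδ.le
      _ ≤ G.ncard := h3
      _ ≤ Z.ncard * (Bx K Y').ncard := h5
      _ ≤ Z.ncard * (C' * Y' ^ n) := mul_le_mul_of_nonneg_left a7 (Nat.cast_nonneg _)
  have h7 : Y' ^ (6 * n) = Y' ^ (5 * n) * Y' ^ n := by
    rw [← pow_add]
    congr 1
    ring
  have h8 : δ * c * Y' ^ (5 * n) ≤ C' * Z.ncard := by
    have h9 : (δ * c * Y' ^ (5 * n)) * Y' ^ n ≤ (C' * Z.ncard) * Y' ^ n := by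
      calc (δ * c * Y' ^ (5 * n)) * Y' ^ n = δ * (c * Y' ^ (6 * n)) := by rw [h7]; ring
        _ ≤ Z.ncard * (C' * Y' ^ n) := h6
        _ = (C' * Z.ncard) * Y' ^ n := by ring
    exact le_of_mul_le_mul_right h9 hYn
  have h9 : (0 : ℝ) < C' ^ 2 * 11 ^ (5 * n) := by positivity
  rw [div_mul_eq_mul_div, div_le_iff₀ h9]
  calc δ * c * {f ∈ AllN K (11 * Y') | f.coeff 2 = 0}.ncard
      ≤ δ * c * (C' * (11 * Y') ^ (5 * n)) := mul_le_mul_of_nonneg_left b5 (by positivity)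
    _ = (C' * 11 ^ (5 * n)) * (δ * c * Y' ^ (5 * n)) := by rw [mul_pow]; ring
    _ ≤ (C' * 11 ^ (5 * n)) * (C' * Z.ncard) := mul_le_mul_of_nonneg_left h8 (by positivity)
    _ = Z.ncard * (C' ^ 2 * 11 ^ (5 * n)) := by ring

end Pool.NF
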